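import Mathlib

/-!
# Systems of equations with coefficients in a finite set
-/

set_option autoImplicit false

open Finset MvPolynomial

namespace Pool.Agent.V8H61.CU

/-- zero, one, the elements of a finite set, and their negatives -/
def Cf {R : Type} [CommRing R] (Om : Finset R) : Set R :=
  {c | c = 0 ∨ c = 1 ∨ c = -1 ∨ c ∈ Om ∨ -c ∈ Om}

section good

variable {R : Type} [CommRing R] {Om : Finset R}

theorem zero_mem_Cf : (0 : R) ∈ Cf Om := Or.inl rfl

theorem one_mem_Cf : (1 : R) ∈ Cf Om := Or.inr (Or.inl rfl)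

theorem neg_one_mem_Cf : (-1 : R) ∈ Cf Om := Or.inr (Or.inr (Or.inl rfl))

theorem mem_Cf {w : R} (hw : w ∈ Om) : w ∈ Cf Om := Or.inr (Or.inr (Or.inr (Or.inl hw)))

theorem neg_mem_Cf {w : R} (hw : w ∈ Om) : -w ∈ Cf Om :=
  Or.inr (Or.inr (Or.inr (Or.inr (by rwa [neg_neg]))))

/-- all coefficients lie in the set -/
def Good (Om : Finset R) {s : Type} (p : MvPolynomial s R) : Prop := ∀ m, coeff m p ∈ Cf Om

theorem good_sum {s ι : Type} (I : Finset ι) (G : ι → MvPolynomial s R)
    (h : ∀ i ∈ I, Good Om (G i))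
    (hu : ∀ i ∈ I, ∀ j ∈ I, ∀ m, coeff m (G i) ≠ 0 → coeff m (G j) ≠ 0 → i = j) :
    Good Om (∑ i ∈ I, G i) := by
  intro m
  rw [coeff_sum]
  by_cases hc : ∃ i ∈ I, coeff m (G i) ≠ 0
  · obtain ⟨i, hi, hne⟩ := hc
    rw [Finset.sum_eq_single i]
    · exact h i hi m
    · intro j hj hji
      by_contra hj0
      exact hji (hu j hj i hi m hj0 hne)
    · intro hi'
      exact absurd hi hi'
  · push Not at hc
    rw [Finset.sum_eq_zero hc]
    exact zero_mem_Cf

theorem good_monomial {s : Type} (a : s →₀ ℕ) {c : R} (hc : c ∈ Cf Om) :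
    Good Om (monomial a c) := by
  classical
  intro m
  rw [coeff_monomial]
  split_ifs
  · exact hc
  · exact zero_mem_Cf

theorem good_sum_monomial {s ι : Type} (I : Finset ι) (E : ι → (s →₀ ℕ)) (δ : ι → R)
    (hE : ∀ i ∈ I, ∀ j ∈ I, E i = E j → i = j) (hδ : ∀ i ∈ I, δ i ∈ Cf Om) :
    Good Om (∑ i ∈ I, monomial (E i) (δ i)) := by
  classical
  refine good_sum I _ (fun i hi => good_monomial _ (hδ i hi)) ?_
  intro i hi j hj m h1 h2
  rw [coeff_monomial] at h1 h2
  by_cases e1 : E i = m
  · by_cases e2 : E j = m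
    · exact hE i hi j hj (e1.trans e2.symm)
    · rw [if_neg e2] at h2
      exact absurd rfl h2
  · rw [if_neg e1] at h1
    exact absurd rfl h1

theorem good_add_monomial {s : Type} {a b : s →₀ ℕ} (hab : a ≠ b) {c d : R} (hc : c ∈ Cf Om)
    (hd : d ∈ Cf Om) : Good Om (monomial a c + monomial b d) := by
  classical
  intro m
  rw [coeff_add, coeff_monomial, coeff_monomial]
  by_cases h1 : a = m
  · rw [if_pos h1, if_neg (fun h2 => hab (h1.trans h2.symm)), add_zero]
    exact hc
  · rw [if_neg h1, zero_add]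
    split_ifs
    · exact hd
    · exact zero_mem_Cf

theorem good_X_sub_one {s : Type} (u : s) : Good Om (X u - 1 : MvPolynomial s R) := by
  have e : (X u - 1 : MvPolynomial s R) = monomial (Finsupp.single u 1) 1 + monomial 0 (-1) := by
    rw [sub_eq_add_neg]
    congr 1
    rw [map_neg]
    rfl
  rw [e]
  refine good_add_monomial ?_ one_mem_Cf neg_one_mem_Cf
  intro h
  rw [Finsupp.single_eq_zero] at h
  exact one_ne_zero h

theorem good_X_sub {s : Type} {u v : s} (huv : u ≠ v) :
    Good Om (X u - X v - 1 : MvPolynomial s R) := by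
  classical
  intro m
  have h1 : (X u - X v - 1 : MvPolynomial s R) = monomial (Finsupp.single u 1) 1 +
      (monomial (Finsupp.single v 1) (-1) + monomial 0 (-1)) := by
    have e1 : (monomial (Finsupp.single v 1) (-1) : MvPolynomial s R) = - X v := by
      rw [map_neg]
      rfl
    have e2 : (monomial 0 (-1) : MvPolynomial s R) = -1 := by
      rw [map_neg]
      rfl
    have e3 : (monomial (Finsupp.single u 1) 1 : MvPolynomial s R) = X u := rfl
    rw [e1, e2, e3]
    ring
  rw [h1, coeff_add]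
  have h2 : Good Om (monomial (Finsupp.single v 1) (-1) + monomial 0 (-1) : MvPolynomial s R) := by
    refine good_add_monomial ?_ neg_one_mem_Cf neg_one_mem_Cf
    intro h
    rw [Finsupp.single_eq_zero] at h
    exact one_ne_zero h
  by_cases hm : Finsupp.single u 1 = m
  · have h3 : coeff m (monomial (Finsupp.single v 1) (-1) + monomial 0 (-1) :
        MvPolynomial s R) = 0 := by
      rw [coeff_add, coeff_monomial, coeff_monomial, if_neg, if_neg, add_zero]
      · intro h
        rw [← hm] at h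
        exact one_ne_zero ((Finsupp.single_eq_zero).1 h.symm)
      · intro h
        rw [← hm] at h
        exact huv ((Finsupp.single_left_inj one_ne_zero).1 h).symm
    rw [h3, add_zero]
    exact good_monomial _ one_mem_Cf m
  · rw [coeff_monomial, if_neg hm, zero_add]
    exact h2 m

theorem good_rename {s t : Type} {f : s → t} (hf : Function.Injective f) {p : MvPolynomial s R}
    (hp : Good Om p) : Good Om (rename f p) := by
  intro m
  by_cases h : ∃ u : s →₀ ℕ, u.mapDomain f = m
  · obtain ⟨u, rfl⟩ := h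
    rw [coeff_rename_mapDomain f hf]
    exact hp u
  · push Not at h
    rw [coeff_rename_eq_zero]
    · exact zero_mem_Cf
    · intro u hu
      exact absurd hu (h u)

theorem good_X_mul {s : Type} (u : s) {p : MvPolynomial s R} (hp : Good Om p) :
    Good Om (X u * p) := by
  classical
  intro m
  rw [coeff_X_mul']
  split_ifs
  · exact hp _
  · exact zero_mem_Cf

end good

theorem exists_pows (n : ℕ) : ∃ D : Finset ℕ, ∑ k ∈ D, 2 ^ k = n := by
  induction n using Nat.strong_induction_on with
  | _ n ih =>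
    rcases Nat.eq_zero_or_pos n with rfl | hn
    · exact ⟨∅, rfl⟩
    · obtain ⟨D, hD⟩ := ih (n / 2) (Nat.div_lt_self hn (by norm_num))
      have h1 : ∑ k ∈ D.map ⟨Nat.succ, Nat.succ_injective⟩, 2 ^ k = 2 * (n / 2) := by
        rw [Finset.sum_map, ← hD, Finset.mul_sum]
        refine Finset.sum_congr rfl fun k _ => ?_
        show 2 ^ (k + 1) = _
        rw [pow_succ, mul_comm]
      rcases Nat.mod_two_eq_zero_or_one n with h | h
      · exact ⟨_, by rw [h1]; omega⟩
      · refine ⟨insert 0 (D.map ⟨Nat.succ, Nat.succ_injective⟩), ?_⟩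
        rw [Finset.sum_insert, h1]
        · omega
        · intro h0
          rw [Finset.mem_map] at h0
          obtain ⟨k, -, hk⟩ := h0
          exact Nat.succ_ne_zero k hk

/-- every coefficient is a sum of signed powers of two times generators -/
theorem exists_expansion {R : Type} [CommRing R] (Om : Finset R)
    (hOm : Submodule.span ℤ (Om : Set R) = ⊤) (c : R) :
    ∃ (D : R → Finset ℕ) (ε : R → R), (∀ w, ε w = w ∨ ε w = -w) ∧
      c = ∑ w ∈ Om, ∑ k ∈ D w, 2 ^ k * ε w := by
  have hc : c ∈ Submodule.span ℤ (Om : Set R) := by rw [hOm]; trivial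
  obtain ⟨n, -, hn⟩ := Submodule.mem_span_finset.1 hc
  choose D hD using exists_pows
  refine ⟨fun w => D (n w).natAbs, fun w => if 0 ≤ n w then w else -w, ?_, ?_⟩
  · intro w
    dsimp only
    split_ifs
    · exact Or.inl rfl
    · exact Or.inr rfl
  · rw [← hn]
    refine Finset.sum_congr rfl fun w _ => ?_
    rw [← Finset.sum_mul]
    have e : (∑ k ∈ D (n w).natAbs, (2 : R) ^ k) = ((n w).natAbs : R) := by
      have := congrArg (Nat.cast : ℕ → R) (hD (n w).natAbs)
      push_cast at this
      exact this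
    rw [e, zsmul_eq_mul]
    dsimp only
    split_ifs with h
    · congr 1
      have h1 : (((n w).natAbs : ℤ) : R) = ((n w : ℤ) : R) := by
        rw [Int.natAbs_of_nonneg h]
      rw [← h1, Int.cast_natCast]
    · have h1 : (((n w).natAbs : ℤ) : R) = ((-(n w) : ℤ) : R) := by
        rw [Int.ofNat_natAbs_of_nonpos (by omega)]
      have h2 : ((n w).natAbs : R) = -((n w : ℤ) : R) := by
        rw [← Int.cast_neg, ← h1, Int.cast_natCast]
      rw [h2]
      ring

section system

variable {s R : Type} [CommRing R] (Om : Finset R)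

/-- the new variables: one for each generator, one for the number one, one for the number two -/
abbrev Tv (Om : Finset R) : Type := {w // w ∈ Om} ⊕ (Unit ⊕ Unit)

/-- the exponent -/
noncomputable def Ex (a : s →₀ ℕ) (w : {w // w ∈ Om}) (k : ℕ) : (s ⊕ Tv Om) →₀ ℕ :=
  a.mapDomain Sum.inl + Finsupp.single (Sum.inr (Sum.inl w)) 1 +
    Finsupp.single (Sum.inr (Sum.inr (Sum.inr ()))) k

omit [CommRing R] in
theorem Ex_inj {a b : s →₀ ℕ} {w v : {w // w ∈ Om}} {k l : ℕ} (h : Ex Om a w k = Ex Om b v l) :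
    a = b ∧ w = v ∧ k = l := by
  have hn : ∀ (a : s →₀ ℕ) (u : Tv Om), (a.mapDomain (Sum.inl : s → s ⊕ Tv Om)) (Sum.inr u) = 0 := by
    intro a u
    refine Finsupp.mapDomain_of_notMem_range _ _ ?_
    rintro ⟨x, hx⟩
    cases hx
  have h1 : ∀ i, Ex Om a w k i = Ex Om b v l i := fun i => by rw [h]
  unfold Ex at h1
  refine ⟨?_, ?_, ?_⟩
  · ext i
    have := h1 (Sum.inl i)
    simp only [Finsupp.add_apply] at this
    rw [Finsupp.mapDomain_apply Sum.inl_injective, Finsupp.mapDomain_apply Sum.inl_injective,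
      Finsupp.single_eq_of_ne (by simp), Finsupp.single_eq_of_ne (by simp),
      Finsupp.single_eq_of_ne (by simp), Finsupp.single_eq_of_ne (by simp)] at this
    simpa using this
  · have := h1 (Sum.inr (Sum.inl w))
    simp only [Finsupp.add_apply] at this
    rw [hn, hn, Finsupp.single_eq_same] at this
    by_contra hne
    rw [Finsupp.single_eq_of_ne (by simp), Finsupp.single_eq_of_ne (by
      intro h'
      exact hne (Sum.inl_injective (Sum.inr_injective h'))), Finsupp.single_eq_of_ne (by simp)] at this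
    simp at this
  · have := h1 (Sum.inr (Sum.inr (Sum.inr ())))
    simp only [Finsupp.add_apply] at this
    have hs : ∀ v : {w // w ∈ Om}, (Finsupp.single (Sum.inr (Sum.inl v)) 1 : (s ⊕ Tv Om) →₀ ℕ)
        (Sum.inr (Sum.inr (Sum.inr ()))) = 0 := fun v => Finsupp.single_eq_of_ne (by simp)
    rw [hn, hn, hs, hs, Finsupp.single_eq_same, Finsupp.single_eq_same] at this
    simpa using this

theorem eval_Ex {κ : Type} [Field κ] (φ : R →+* κ) (z : s ⊕ Tv Om → κ) (a : s →₀ ℕ)
    (w : {w // w ∈ Om}) (k : ℕ) (c : R) (h1 : z (Sum.inr (Sum.inl w)) = 1)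
    (h2 : z (Sum.inr (Sum.inr (Sum.inr ()))) = 2) :
    eval₂ φ z (monomial (Ex Om a w k) c) =
      eval₂ φ (fun i => z (Sum.inl i)) (monomial a 1) * φ (2 ^ k * c) := by
  have e : (monomial (Ex Om a w k) c : MvPolynomial (s ⊕ Tv Om) R) =
      rename Sum.inl (monomial a 1) * X (Sum.inr (Sum.inl w)) *
        (X (Sum.inr (Sum.inr (Sum.inr ()))) ^ k * C c) := by
    rw [rename_monomial, X_pow_eq_monomial, C_apply]
    unfold X
    rw [monomial_mul, monomial_mul, monomial_mul]
    unfold Ex
    rw [add_zero, one_mul, one_mul, one_mul]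
  rw [e, eval₂_mul, eval₂_mul, eval₂_mul, eval₂_rename, eval₂_X, eval₂_pow, eval₂_X, eval₂_C,
    h1, h2, mul_one, map_mul, map_pow, map_ofNat]
  rfl

end system

open Classical in
/-- **Every system of equations is equivalent to one whose coefficients are zero, one, elements of a
set of generators, or their negatives.** -/
theorem digits {s : Type} [Fintype s] {R : Type} [CommRing R] (Om : Finset R)
    (hOm : Submodule.span ℤ (Om : Set R) = ⊤) (X0 : Finset (MvPolynomial s R)) :
    ∃ (t : Type) (_ : Fintype t) (X1 : Finset (MvPolynomial (s ⊕ t) R)),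
      (∀ f ∈ X1, ∀ m, coeff m f ∈ Cf Om) ∧
      ∀ (k : Type) [Field k] [Finite k] (φ : R →+* k),
        Nat.card {z : s ⊕ t → k // ∀ f ∈ X1, eval₂ φ z f = 0} =
          Nat.card {x : s → k // ∀ f ∈ X0, eval₂ φ x f = 0} := by
  choose D ε hε hD using exists_expansion Om hOm
  obtain ⟨tr, htr⟩ : ∃ tr : MvPolynomial s R → MvPolynomial (s ⊕ Tv Om) R, tr = fun f =>
      ∑ i ∈ f.support.sigma fun a => (univ : Finset {w // w ∈ Om}).sigma fun w =>
        D (coeff a f) w.1, monomial (Ex Om i.1 i.2.1 i.2.2) (ε (coeff i.1 f) i.2.1.1) := ⟨_, rfl⟩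
  have hgood : ∀ f, Good Om (tr f) := by
    intro f
    rw [htr]
    refine good_sum_monomial _ _ _ ?_ ?_
    · rintro ⟨a, w, k⟩ - ⟨b, v, l⟩ - h
      obtain ⟨rfl, rfl, rfl⟩ := Ex_inj Om h
      rfl
    · rintro ⟨a, w, k⟩ -
      rcases hε (coeff a f) w.1 with h | h
      · dsimp only
        rw [h]
        exact mem_Cf w.2
      · dsimp only
        rw [h]
        exact neg_mem_Cf w.2
  have heval : ∀ (k : Type) [Field k] (φ : R →+* k) (z : s ⊕ Tv Om → k),
      (∀ w, z (Sum.inr (Sum.inl w)) = 1) → z (Sum.inr (Sum.inr (Sum.inr ()))) = 2 →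
      ∀ f, eval₂ φ z (tr f) = eval₂ φ (fun i => z (Sum.inl i)) f := by
    intro k _ φ z h1 h2 f
    rw [htr]
    dsimp only
    rw [eval₂_sum, Finset.sum_sigma]
    have e1 : eval₂ φ (fun i => z (Sum.inl i)) f =
        ∑ a ∈ f.support, eval₂ φ (fun i => z (Sum.inl i)) (monomial a (coeff a f)) := by
      conv_lhs => rw [f.as_sum]
      rw [eval₂_sum]
    rw [e1]
    refine Finset.sum_congr rfl fun a _ => ?_
    rw [Finset.sum_sigma]
    have e2 : eval₂ φ (fun i => z (Sum.inl i)) (monomial a (coeff a f)) =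
        eval₂ φ (fun i => z (Sum.inl i)) (monomial a 1) * φ (coeff a f) := by
      rw [eval₂_monomial, eval₂_monomial, map_one, one_mul, mul_comm]
    rw [e2]
    conv_rhs => rw [hD (coeff a f)]
    rw [map_sum, Finset.mul_sum, ← Finset.sum_coe_sort Om]
    refine Finset.sum_congr rfl fun w _ => ?_
    rw [map_sum, Finset.mul_sum]
    refine Finset.sum_congr rfl fun l _ => ?_
    exact eval_Ex Om φ z a w l _ (h1 w) h2
  refine ⟨Tv Om, inferInstance, X0.image tr ∪ ((univ.image fun w : {w // w ∈ Om} =>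
    X (Sum.inr (Sum.inl w)) - 1) ∪ {X (Sum.inr (Sum.inr (Sum.inl ()))) - 1,
      X (Sum.inr (Sum.inr (Sum.inr ()))) - X (Sum.inr (Sum.inr (Sum.inl ()))) - 1}), ?_, ?_⟩
  · intro f hf
    rw [mem_union, mem_union, mem_image, mem_image, mem_insert, mem_singleton] at hf
    rcases hf with ⟨g, -, rfl⟩ | ⟨w, -, rfl⟩ | rfl | rfl
    · exact hgood g
    · exact good_X_sub_one _
    · exact good_X_sub_one _
    · exact good_X_sub (by simp)
  · intro k _ _ φ
    have key : ∀ z : s ⊕ Tv Om → k, (∀ f ∈ (X0.image tr ∪ ((univ.image fun w : {w // w ∈ Om} =>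
        X (Sum.inr (Sum.inl w)) - 1) ∪ {X (Sum.inr (Sum.inr (Sum.inl ()))) - 1,
        X (Sum.inr (Sum.inr (Sum.inr ()))) - X (Sum.inr (Sum.inr (Sum.inl ()))) - 1} :
          Finset (MvPolynomial (s ⊕ Tv Om) R))),
        eval₂ φ z f = 0) ↔ (∀ w, z (Sum.inr (Sum.inl w)) = 1) ∧
        z (Sum.inr (Sum.inr (Sum.inl ()))) = 1 ∧ z (Sum.inr (Sum.inr (Sum.inr ()))) = 2 ∧
        ∀ f ∈ X0, eval₂ φ (fun i => z (Sum.inl i)) f = 0 := by
      intro z
      constructor
      · intro h
        have h1 : ∀ w, z (Sum.inr (Sum.inl w)) = 1 := by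
          intro w
          have := h (X (Sum.inr (Sum.inl w)) - 1) (mem_union_right _ (mem_union_left _
            (mem_image_of_mem _ (mem_univ w))))
          rw [eval₂_sub, eval₂_X, eval₂_one, sub_eq_zero] at this
          exact this
        have h2 : z (Sum.inr (Sum.inr (Sum.inl ()))) = 1 := by
          have := h (X (Sum.inr (Sum.inr (Sum.inl ()))) - 1) (mem_union_right _
            (mem_union_right _ (mem_insert_self _ _)))
          rw [eval₂_sub, eval₂_X, eval₂_one, sub_eq_zero] at this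
          exact this
        have h3 : z (Sum.inr (Sum.inr (Sum.inr ()))) = 2 := by
          have := h (X (Sum.inr (Sum.inr (Sum.inr ()))) - X (Sum.inr (Sum.inr (Sum.inl ()))) - 1)
            (mem_union_right _ (mem_union_right _ (mem_insert_of_mem (mem_singleton_self _))))
          rw [eval₂_sub, eval₂_sub, eval₂_X, eval₂_X, eval₂_one, h2] at this
          linear_combination this
        refine ⟨h1, h2, h3, fun f hf => ?_⟩
        rw [← heval k φ z h1 h3 f]
        exact h _ (mem_union_left _ (mem_image_of_mem _ hf))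
      · rintro ⟨h1, h2, h3, h4⟩ f hf
        rw [mem_union, mem_union, mem_image, mem_image, mem_insert, mem_singleton] at hf
        rcases hf with ⟨g, hg, rfl⟩ | ⟨w, -, rfl⟩ | rfl | rfl
        · rw [heval k φ z h1 h3 g]
          exact h4 g hg
        · rw [eval₂_sub, eval₂_X, eval₂_one, h1, sub_self]
        · rw [eval₂_sub, eval₂_X, eval₂_one, h2, sub_self]
        · rw [eval₂_sub, eval₂_sub, eval₂_X, eval₂_X, eval₂_one, h2, h3]
          ring
    refine Nat.card_congr
      { toFun := fun z => ⟨fun i => z.1 (Sum.inl i), ((key z.1).1 z.2).2.2.2⟩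
        invFun := fun x => ⟨Sum.elim x.1 (Sum.elim (fun _ => 1) (Sum.elim (fun _ => 1)
          (fun _ => 2))), (key _).2 ⟨fun _ => rfl, rfl, rfl, x.2⟩⟩
        left_inv := ?_
        right_inv := fun x => rfl }
    intro z
    apply Subtype.ext
    funext i
    obtain ⟨h1, h2, h3, -⟩ := (key z.1).1 z.2
    rcases i with i | w | u | u
    · rfl
    · exact (h1 w).symm
    · exact h2.symm
    · exact h3.symm

end Pool.Agent.V8H61.CU
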