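import Mathlib
import Pool.Agent.V8H61.CU.Dig
import Pool.Agent.V8H32.CU.Quad

/-!
# The coefficients of the cubic polynomial
-/

set_option autoImplicit false

open Finset MvPolynomial

namespace Pool.Agent.V8H61.CU

open Pool.Agent.V8H32.CU

variable {σ : Type} [Fintype σ] {D : ℕ} {R : Type} [CommRing R] {Om : Finset R}

theorem hh_good (hD : 1 ≤ D) (X0 : Finset (MvPolynomial σ R))
    (h : ∀ f ∈ X0, ∀ m, coeff m f ∈ Cf Om) (e : Rh σ D X0) : Good Om (hh hD X0 e) := by
  classical
  rcases e with _ | p | f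
  · exact good_X_sub_one _
  · have e1 : hh hD X0 (Sum.inr (Sum.inl p)) = if p.1.1 p.2 = 0 then 0 else
      X p.1 - X (tsub p.1 p.2) * X (te hD p.2) := rfl
    rw [e1]
    split_ifs
    · intro m
      rw [coeff_zero]
      exact zero_mem_Cf
    · have e2 : (X p.1 - X (tsub p.1 p.2) * X (te hD p.2) : MvPolynomial (TT σ D) R) =
          monomial (Finsupp.single p.1 1) 1 + monomial (Finsupp.single (tsub p.1 p.2) 1 +
            Finsupp.single (te hD p.2) 1) (-1) := by
        rw [sub_eq_add_neg]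
        congr 1
        rw [map_neg]
        unfold X
        rw [monomial_mul, one_mul]
      rw [e2]
      refine good_add_monomial ?_ one_mem_Cf neg_one_mem_Cf
      intro h'
      have h1 := congrArg (fun g : TT σ D →₀ ℕ => g.sum fun _ n => n) h'
      rw [Finsupp.sum_single_index rfl, Finsupp.sum_add_index' (fun _ => rfl) (fun _ _ _ => rfl),
        Finsupp.sum_single_index rfl, Finsupp.sum_single_index rfl] at h1
      omega
  · have e1 : hh hD X0 (Sum.inr (Sum.inr f)) = ∑ a : TT σ D, C (coeff a.1 f.1) * X a := rfl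
    have e2 : (∑ a : TT σ D, C (coeff a.1 f.1) * X a : MvPolynomial (TT σ D) R) =
        ∑ a : TT σ D, monomial (Finsupp.single a 1) (coeff a.1 f.1) := by
      refine Finset.sum_congr rfl fun a _ => ?_
      rw [C_mul_X_eq_monomial]
    rw [e1, e2]
    refine good_sum_monomial _ _ _ ?_ (fun a _ => h f.1 f.2 _)
    intro a _ b _ hab
    exact (Finsupp.single_left_inj one_ne_zero).1 hab

/-- **The coefficients of the cubic polynomial.** -/
theorem FF_good (hD : 1 ≤ D) (X0 : Finset (MvPolynomial σ R))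
    (h : ∀ f ∈ X0, ∀ m, coeff m f ∈ Cf Om) : ∀ m, coeff m (FF hD X0) ∈ Cf Om := by
  classical
  unfold FF
  refine good_sum _ _ (fun e _ => good_X_mul _ (good_rename Sum.inl_injective (hh_good hD X0 h e))) ?_
  have key : ∀ (e : Rh σ D X0) (m : TT σ D ⊕ Rh σ D X0 →₀ ℕ),
      coeff m (X (Sum.inr e) * rename Sum.inl (hh hD X0 e)) ≠ 0 →
      m (Sum.inr e) ≠ 0 ∧ ∀ e', e' ≠ e → m (Sum.inr e') = 0 := by
    intro e m hm
    rw [coeff_X_mul'] at hm
    split_ifs at hm with hs
    · refine ⟨Finsupp.mem_support_iff.1 hs, fun e' he' => ?_⟩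
      obtain ⟨u, hu, -⟩ := coeff_rename_ne_zero _ _ _ hm
      have h1 := DFunLike.congr_fun hu (Sum.inr e')
      rw [Finsupp.mapDomain_of_notMem_range _ _ (by
        rintro ⟨x, hx⟩
        cases hx), Finsupp.tsub_apply, Finsupp.single_eq_of_ne (fun h' =>
          he' (Sum.inr_injective h')), Nat.sub_zero] at h1
      exact h1.symm
    · exact absurd rfl hm
  intro e _ e' _ m h1 h2
  by_contra hne
  exact (key e' m h2).1 ((key e m h1).2 e' (Ne.symm hne))

theorem FF_good_rename (hD : 1 ≤ D) (X0 : Finset (MvPolynomial σ R))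
    (h : ∀ f ∈ X0, ∀ m, coeff m f ∈ Cf Om) {τ : Type} (f : TT σ D ⊕ Rh σ D X0 ≃ τ) :
    ∀ m, coeff m (rename f (FF hD X0)) ∈ Cf Om :=
  good_rename f.injective (FF_good hD X0 h)

end Pool.Agent.V8H61.CU
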